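import Pool.Agent.Lib.DM.V.V1

/-!
# Theorem DU, part V for `k = 1` (author helper36)

`thmV_inv`: characteristic `3`; `h (g r) - h (g 0) = ψ(d) (h r - h 0)` for `g ∈ Γ₀(M)`, `M` prime to `3`, and
`h (a y) = h y` for `y ∈ ℤ[1/3]` and all integers `a = 1` modulo `3`. Then `h (b/d) = h 0` if `M ∣ d - 1`.
Proof: on `ℤ[1/3]` the function `h` depends only on the denominator `3^i`, `h = h 0 + u i`, and `u` is a cocycle,
`u (i + j) = u i + ψ(3)^i u j`; the relation `E r s`: there are `i, j` with `den r 3^i = ± den s 3^j` modulo `M` and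
`h r + ψ(den r) u i = h s + ψ(den s) u j` has the property of `thmV`.
-/

set_option autoImplicit false

noncomputable section

namespace Pool.Agent.DM.DU.V1

open DT.V (AL E0)
open Pool.Agent.DM.V1

variable {M : ℕ} {F : Type} [Field F]

/-- The hypotheses. -/
structure Inv (M : ℕ) (ψ : MulChar (ZMod M) F) (h : ℚ → F) : Prop where
  cop : Nat.Coprime 3 M
  two : 2 ≤ M
  char : (3 : F) = 0
  hG : ∀ a b c d : ℤ, a * d - b * c = 1 → (M : ℤ) ∣ c → ∀ r : ℚ, r.den.Coprime M →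
    h ((a * r + b) / (c * r + d)) - h (b / d) = ψ (d : ZMod M) * (h r - h 0)
  hA : ∀ (a c : ℤ) (j : ℕ), (3 : ℤ) ∣ a - 1 → h (a * c / 3 ^ j) = h (c / 3 ^ j)

variable {ψ : MulChar (ZMod M) F} {h : ℚ → F}

theorem frac_den {p q : ℤ} (hpq : IsCoprime p q) (hq : q ≠ 0) : ((p : ℚ) / q).den = q.natAbs := by
  have key : ∀ p q : ℤ, IsCoprime p q → 0 < q → ((p : ℚ) / q).den = q.natAbs := by
    intro p q h hq
    obtain ⟨n, rfl⟩ : ∃ n : ℕ, q = n := ⟨q.toNat, by omega⟩
    have hc : p.natAbs.Coprime (n : ℤ).natAbs := Int.isCoprime_iff_gcd_eq_one.1 h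
    have e2 := Rat.den_div_eq_of_coprime hq hc
    have e3 : ((p : ℚ) / ((n : ℤ) : ℚ)).den = n := by exact_mod_cast e2
    rw [e3]
    simp
  rcases lt_or_gt_of_ne hq with h1 | h1
  · have h2 := key (-p) (-q) ((hpq.neg_left).neg_right) (by omega)
    have e : ((-p : ℤ) : ℚ) / ((-q : ℤ) : ℚ) = (p : ℚ) / q := by
      push_cast
      rw [neg_div_neg_eq]
    rw [e] at h2
    rw [h2, Int.natAbs_neg]
  · exact key p q hpq h1

theorem frac_cop {p q : ℤ} (hpq : IsCoprime p q) (hq : q ≠ 0) (hM : IsCoprime q (M : ℤ)) :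
    ((p : ℚ) / q).den.Coprime M := by
  rw [frac_den hpq hq]
  exact Int.isCoprime_iff_gcd_eq_one.1 hM

theorem pow_cop (ho : Nat.Coprime 3 M) (i : ℕ) : IsCoprime ((3 : ℤ) ^ i) (M : ℤ) := by
  refine IsCoprime.pow_left ?_
  exact_mod_cast Nat.isCoprime_iff_coprime.2 ho

/-- The action on a vector. -/
theorem act1 (X : Inv M ψ h) {a b c d : ℤ} (hdet : a * d - b * c = 1) (hc : (M : ℤ) ∣ c) {p q P Q : ℤ}
    (hpq : IsCoprime p q) (hq : IsCoprime q (M : ℤ)) (hP : a * p + b * q = P) (hQ : c * p + d * q = Q) :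
    h (P / Q) - h (b / d) = ψ (d : ZMod M) * (h (p / q) - h 0) := by
  have hq0 : q ≠ 0 := ne_of_cop X.two hq
  have hq' : (q : ℚ) ≠ 0 := by exact_mod_cast hq0
  have h1 := X.hG a b c d hdet hc ((p : ℚ) / q) (frac_cop hpq hq0 hq)
  rw [← h1]
  congr 2
  rw [← hP, ← hQ]
  push_cast
  have e1 : (a : ℚ) * (p / q) + b = (a * p + b * q) / q := by
    field_simp
  have e2 : (c : ℚ) * (p / q) + d = (c * p + d * q) / q := by
    field_simp
  rw [e1, e2, div_div_div_cancel_right₀ hq']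

/-- The action on two vectors. -/
theorem act2 (X : Inv M ψ h) {a b c d : ℤ} (hdet : a * d - b * c = 1) (hc : (M : ℤ) ∣ c)
    {p q p' q' P Q P' Q' : ℤ} (hpq : IsCoprime p q) (hq : IsCoprime q (M : ℤ))
    (hpq' : IsCoprime p' q') (hq' : IsCoprime q' (M : ℤ)) (hP : a * p + b * q = P)
    (hQ : c * p + d * q = Q) (hP' : a * p' + b * q' = P') (hQ' : c * p' + d * q' = Q') :
    h (P / Q) - h (P' / Q') = ψ (d : ZMod M) * (h (p / q) - h (p' / q')) := by
  have h1 := act1 X hdet hc hpq hq hP hQ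
  have h2 := act1 X hdet hc hpq' hq' hP' hQ'
  linear_combination h1 - h2

theorem h_one (X : Inv M ψ h) : h 1 = h 0 := by
  have h1 := X.hA 4 1 1 (by norm_num)
  have h2 := act2 X (a := 1) (b := 1) (c := 0) (d := 1) (p := 1) (q := 3) (p' := 0) (q' := 1)
    (by norm_num) (dvd_zero _) (by norm_num) (by have := pow_cop X.cop 1; simpa using this)
    (by norm_num) isCoprime_one_left rfl rfl rfl rfl
  push_cast at h1 h2
  norm_num at h1 h2
  rw [h1, sub_right_inj] at h2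
  exact h2

theorem h_T (X : Inv M ψ h) {r : ℚ} (hr : r.den.Coprime M) : h (r + 1) = h r := by
  have h1 := X.hG 1 1 0 1 (by norm_num) (dvd_zero _) r hr
  push_cast at h1
  rw [zero_mul, zero_add, div_one, div_one, one_mul, map_one, one_mul, h_one X] at h1
  exact sub_left_inj.1 h1

theorem h_int (X : Inv M ψ h) (n : ℤ) : h n = h 0 := by
  have hd : ∀ n : ℤ, ((n : ℚ)).den.Coprime M := by
    intro n
    rw [Rat.den_intCast]
    exact Nat.coprime_one_left M
  induction n using Int.induction_on with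
  | zero => norm_num
  | succ i ih =>
    have h1 := h_T X (hd i)
    push_cast at ih h1 ⊢
    rw [h1, ih]
  | pred i ih =>
    have h1 := h_T X (hd (-(i : ℤ) - 1))
    push_cast at ih h1 ⊢
    rw [← ih, ← h1]
    congr 1
    ring

/-- Values at `p / 3^i`, `p = s = ± 1` modulo `3`. -/
theorem val (X : Inv M ψ h) {p s : ℤ} (hs : s = 1 ∨ s = -1) (h3 : (3 : ℤ) ∣ p - s) (i : ℕ) :
    h ((p : ℚ) / 3 ^ i) = h ((s : ℚ) / 3 ^ i) := by
  have h1 : (3 : ℤ) ∣ p * s - 1 := by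
    rcases hs with rfl | rfl
    · simpa using h3
    · omega
  have h2 := X.hA (p * s) s i h1
  have e : (((p * s : ℤ) : ℚ) * (s : ℚ)) = p := by
    rcases hs with rfl | rfl <;> push_cast <;> ring
  rw [e] at h2
  exact h2

theorem exM (ho : Nat.Coprime 3 M) : ∃ m : ℕ, 2 ≤ m ∧ (M : ℤ) ∣ 3 ^ m - 1 := by
  by_cases hM : M = 0
  · subst hM
    simp at ho
  have hφ : 0 < Nat.totient M := Nat.totient_pos.2 (Nat.pos_of_ne_zero hM)
  refine ⟨Nat.totient M * 2, by omega, ?_⟩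
  have h1 := (Nat.ModEq.pow_totient ho).pow 2
  rw [← pow_mul, one_pow] at h1
  have h2 := (Nat.modEq_iff_dvd' (Nat.one_le_pow _ _ (by norm_num))).1 h1.symm
  have h3 : ((M : ℕ) : ℤ) ∣ ((3 ^ (Nat.totient M * 2) - 1 : ℕ) : ℤ) := Int.natCast_dvd_natCast.2 h2
  rw [Nat.cast_sub (Nat.one_le_pow _ _ (by norm_num))] at h3
  push_cast at h3
  exact h3

theorem z3 {x y : ℤ} : (3 : ℤ) ∣ x - y ↔ (x : ZMod 3) = y := by
  rw [eq_comm, ZMod.intCast_eq_intCast_iff_dvd_sub]
  norm_num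

theorem pow_zero3 {i : ℕ} (hi : 1 ≤ i) : (3 : ZMod 3) ^ i = 0 := by
  have : (3 : ZMod 3) = 0 := by decide
  rw [this, zero_pow (by omega)]

theorem exc0 (ho : Nat.Coprime 3 M) {s : ℤ} (hs : s = 1 ∨ s = -1) {m : ℕ} (hm : (M : ℤ) ∣ 3 ^ m - 1) :
    ∃ c0 e0 : ℤ, (M : ℤ) ∣ c0 ∧ (3 : ℤ) ∣ c0 - s ∧ c0 * e0 = 3 ^ m - 1 ∧ (c0 = M ∨ c0 = -M) := by
  obtain ⟨e, he⟩ := hm
  have h3 : ¬ (3 : ℤ) ∣ M := by
    intro h
    have h1 : (3 : ℕ) ∣ M := by exact_mod_cast h
    rw [Nat.Prime.coprime_iff_not_dvd Nat.prime_three] at ho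
    exact ho h1
  by_cases h1 : (3 : ℤ) ∣ M - s
  · exact ⟨M, e, dvd_refl _, h1, he.symm, Or.inl rfl⟩
  · refine ⟨-M, -e, (dvd_neg).2 (dvd_refl _), ?_, by rw [he]; ring, Or.inr rfl⟩
    rcases hs with rfl | rfl <;> omega

/-- **Step (iii).** -/
theorem step3 (X : Inv M ψ h) {s : ℤ} (hs : s = 1 ∨ s = -1) {i m : ℕ} (hi : 1 ≤ i) (hm1 : 1 ≤ m)
    (hm : (M : ℤ) ∣ 3 ^ m - 1) : h (((-s : ℤ) : ℚ) / 3 ^ (i + m)) - h ((s : ℚ) / 3 ^ i) =
      h ((s : ℚ) / 3 ^ i) - h (((-s : ℤ) : ℚ) / 3 ^ i) := by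
  obtain ⟨c0, e0, hMc, hcs, hce, -⟩ := exc0 X.cop hs hm
  have hss : s * s = 1 := by rcases hs with rfl | rfl <;> norm_num
  have hs3 : (s : ZMod 3) * s = 1 := by
    have := congrArg (fun x : ℤ => (x : ZMod 3)) hss
    push_cast at this
    exact this
  have hc3 : (c0 : ZMod 3) = s := z3.1 hcs
  obtain ⟨d, hd⟩ : ∃ d : ℤ, d = 1 + c0 * s := ⟨_, rfl⟩
  have hd3 : (d : ZMod 3) = 2 := by
    rw [hd]
    push_cast
    rw [hc3, hs3]
    decide
  have hcop : IsCoprime d (3 ^ i * c0) := by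
    refine IsCoprime.mul_right ?_ ?_
    · refine IsCoprime.pow_right ?_
      rw [isCoprime_comm]
      refine (Int.prime_three.coprime_iff_not_dvd).2 ?_
      intro h
      have h1 : (d : ZMod 3) = 0 := (ZMod.intCast_zmod_eq_zero_iff_dvd d 3).2 (by exact_mod_cast h)
      rw [hd3] at h1
      exact absurd h1 (by decide)
    · rw [hd]
      exact ⟨1, -s, by ring⟩
  obtain ⟨a, b, hab⟩ := hcop
  obtain ⟨p, hp⟩ : ∃ p : ℤ, p = -s + e0 := ⟨_, rfl⟩
  have hp1 : c0 * p + d = 3 ^ m := by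
    rw [hp, hd]
    linear_combination hce
  have hM3 : IsCoprime ((3 : ℤ) ^ i) (M : ℤ) := pow_cop X.cop i
  have e3 : ∀ (x : ℤ) (j : ℕ), ((x : ZMod 3)) * 3 ^ (i + j) = 0 := by
    intro x j
    rw [pow_zero3 (by omega), mul_zero]
  have hp3 : (s : ZMod 3) * p + 2 = 0 := by
    have := congrArg (fun x : ℤ => (x : ZMod 3)) hp1
    push_cast at this
    rw [hc3, hd3, pow_zero3 hm1] at this
    exact this
  have ha3 : (a : ZMod 3) * 2 = 1 := by
    have := congrArg (fun x : ℤ => (x : ZMod 3)) hab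
    push_cast at this
    rw [pow_zero3 hi, hd3, zero_mul, mul_zero, add_zero] at this
    exact this
  have hps : (p : ZMod 3) = s := by
    revert hs3 hp3
    generalize (s : ZMod 3) = s'
    generalize (p : ZMod 3) = p'
    revert s' p'
    decide
  have ha2 : (a : ZMod 3) = 2 := by
    revert ha3
    generalize (a : ZMod 3) = a'
    revert a'
    decide
  have cop3 : ∀ x : ℤ, ((x : ZMod 3) = s ∨ (x : ZMod 3) = -s) → IsCoprime x ((3 : ℤ) ^ i) := by
    intro x hx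
    refine IsCoprime.pow_right ?_
    rw [isCoprime_comm]
    refine (Int.prime_three.coprime_iff_not_dvd).2 ?_
    intro h
    have h1 : (x : ZMod 3) = 0 := (ZMod.intCast_zmod_eq_zero_iff_dvd x 3).2 (by exact_mod_cast h)
    rw [h1] at hx
    revert hx hs3
    generalize (s : ZMod 3) = s'
    revert s'
    decide
  have key := act2 X (a := a) (b := -b) (c := 3 ^ i * c0) (d := d) (p := p) (q := 3 ^ i)
    (p' := -s) (q' := 3 ^ i) (P := a * p + -b * 3 ^ i) (Q := 3 ^ (i + m))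
    (P' := a * (-s) + -b * 3 ^ i) (Q' := 3 ^ i) (by linear_combination hab)
    (hMc.mul_left _) (cop3 p (Or.inl hps)) hM3
    (cop3 (-s) (Or.inr (by push_cast; rfl))) hM3 rfl
    (by rw [pow_add]; linear_combination (3 : ℤ) ^ i * hp1) rfl
    (by rw [hd]; ring)
  have hψ : ψ (d : ZMod M) = 1 := by
    have : (d : ZMod M) = 1 := by
      rw [hd]
      push_cast
      rw [(ZMod.intCast_zmod_eq_zero_iff_dvd c0 M).2 hMc]
      ring
    rw [this, map_one]
  rw [hψ, one_mul] at key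
  have v1 := val X (p := a * p + -b * 3 ^ i) (s := -s) (by rcases hs with rfl | rfl <;> simp)
    (z3.2 (by
      push_cast
      rw [pow_zero3 hi, mul_zero, add_zero, ha2, hps]
      generalize (s : ZMod 3) = s'
      revert s'
      decide)) (i + m)
  have v2 := val X (p := a * (-s) + -b * 3 ^ i) (s := s) hs
    (z3.2 (by
      push_cast
      rw [pow_zero3 hi, mul_zero, add_zero, ha2]
      generalize (s : ZMod 3) = s'
      revert s'
      decide)) i
  have v3 := val X (p := p) (s := s) hs (z3.2 hps) i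
  push_cast at key v1 v2 v3 ⊢
  rw [v1, v2, v3] at key
  exact key

/-- For large `i` the value does not depend on the sign. -/
theorem sgn_large (X : Inv M ψ h) {i m : ℕ} (hi : 1 ≤ i) (hm1 : 1 ≤ m)
    (hm : (M : ℤ) ∣ 3 ^ m - 1) : h (((-1 : ℤ) : ℚ) / 3 ^ (i + m)) = h (((1 : ℤ) : ℚ) / 3 ^ (i + m)) := by
  have h1 := step3 X (s := 1) (Or.inl rfl) hi hm1 hm
  have h2 := step3 X (s := -1) (Or.inr rfl) hi hm1 hm
  rw [neg_neg] at h2
  have h3 := X.char
  linear_combination h1 - h2 + (h (((1 : ℤ) : ℚ) / 3 ^ i) - h (((-1 : ℤ) : ℚ) / 3 ^ i)) * h3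

/-- **Step (i).** -/
theorem step1 (X : Inv M ψ h) {s : ℤ} (hs : s = 1 ∨ s = -1) {K i : ℕ} (hK : 1 ≤ K)
    (hm : (M : ℤ) ∣ 3 ^ (K + i) - 1) : h 0 - h (((-s : ℤ) : ℚ) / 3 ^ K) =
      ψ (3 : ZMod M) ^ K * (h ((s : ℚ) / 3 ^ i) - h 0) := by
  have hss : s * s = 1 := by rcases hs with rfl | rfl <;> norm_num
  have hs3 : (s : ZMod 3) * s = 1 := by
    have := congrArg (fun x : ℤ => (x : ZMod 3)) hss
    push_cast at this
    exact this
  obtain ⟨c, hc⟩ : ∃ c : ℤ, c = s * (1 - 3 ^ (K + i)) := ⟨_, rfl⟩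
  have hMc : (M : ℤ) ∣ c := by
    rw [hc]
    refine Dvd.dvd.mul_left ?_ _
    have := (dvd_neg).2 hm
    rwa [neg_sub] at this
  have hc3 : (c : ZMod 3) = s := by
    rw [hc]
    push_cast
    rw [pow_zero3 (by omega)]
    ring
  have hcop : IsCoprime ((3 : ℤ) ^ K) c := by
    refine IsCoprime.pow_left ?_
    refine (Int.prime_three.coprime_iff_not_dvd).2 ?_
    intro h
    have h1 : (c : ZMod 3) = 0 := (ZMod.intCast_zmod_eq_zero_iff_dvd c 3).2 (by exact_mod_cast h)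
    rw [hc3] at h1
    rw [h1] at hs3
    revert hs3
    decide
  obtain ⟨a, b, hab⟩ := hcop
  have hsu : IsCoprime s ((3 : ℤ) ^ i) := ⟨s, 0, by rw [hss]; ring⟩
  have key := act1 X (a := a) (b := -b) (c := c) (d := 3 ^ K) (p := s) (q := 3 ^ i)
    (P := a * s + -b * 3 ^ i) (Q := 1) (by linear_combination hab) hMc hsu (pow_cop X.cop i) rfl
    (by rw [hc, ← pow_add]; linear_combination (1 - (3 : ℤ) ^ (K + i)) * hss)
  have v1 : h (((a * s + -b * 3 ^ i : ℤ) : ℚ) / ((1 : ℤ) : ℚ)) = h 0 := by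
    rw [Int.cast_one, div_one]
    exact h_int X _
  have hb3 : ((-b : ℤ) : ZMod 3) = ((-s : ℤ) : ZMod 3) := by
    have := congrArg (fun x : ℤ => (x : ZMod 3)) hab
    push_cast at this ⊢
    rw [pow_zero3 hK, mul_zero, zero_add, hc3] at this
    revert this hs3
    generalize (s : ZMod 3) = s'
    generalize (b : ZMod 3) = b'
    revert s' b'
    decide
  have v2 := val X (p := -b) (s := -s) (by rcases hs with rfl | rfl <;> simp) (z3.2 hb3) K
  have hψ : ψ (((3 : ℤ) ^ K : ℤ) : ZMod M) = ψ (3 : ZMod M) ^ K := by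
    push_cast
    rw [map_pow]
  rw [v1, hψ] at key
  push_cast at key v2 ⊢
  rw [v2] at key
  exact key

/-- The value at `p / 3^i` depends only on `i`. -/
theorem sgn (X : Inv M ψ h) (K : ℕ) : h (((-1 : ℤ) : ℚ) / 3 ^ K) = h (((1 : ℤ) : ℚ) / 3 ^ K) := by
  rcases Nat.eq_zero_or_pos K with rfl | hK
  · rw [pow_zero, div_one, div_one, h_int X, h_int X]
  obtain ⟨m, hm2, hm⟩ := exM X.cop
  have hmul : ∀ t : ℕ, (M : ℤ) ∣ 3 ^ (m * t) - 1 := by
    intro t
    rw [pow_mul]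
    exact hm.trans (by simpa using sub_dvd_pow_sub_pow ((3 : ℤ) ^ m) 1 t)
  obtain ⟨i, hi⟩ : ∃ i : ℕ, K + (i + m) = m * (K + 2) := by
    refine ⟨m * (K + 2) - m - K, ?_⟩
    have : m + K + 1 ≤ m * (K + 2) := by nlinarith
    omega
  have hi1 : 1 ≤ i := by
    by_contra h0
    have h0' : i = 0 := by omega
    subst h0'
    nlinarith
  have h0 := sgn_large X hi1 (by omega) hm
  have h1 := step1 X (s := 1) (Or.inl rfl) (i := i + m) hK (by rw [hi]; exact hmul _)
  have h2 := step1 X (s := -1) (Or.inr rfl) (i := i + m) hK (by rw [hi]; exact hmul _)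
  rw [neg_neg] at h2
  rw [h0] at h2
  linear_combination h2 - h1

/-- `x_i`. -/
theorem xval (X : Inv M ψ h) {p : ℤ} {i : ℕ} (hp : i = 0 ∨ ¬ (3 : ℤ) ∣ p) :
    h ((p : ℚ) / 3 ^ i) = h (1 / 3 ^ i) := by
  have e1 : h ((1 : ℚ) / 3 ^ i) = h (((1 : ℤ) : ℚ) / 3 ^ i) := by
    push_cast
    rfl
  rw [e1]
  rcases hp with rfl | hp
  · rw [pow_zero, div_one, div_one, h_int X, h_int X]
  · by_cases h1 : (3 : ℤ) ∣ p - 1
    · exact val X (Or.inl rfl) h1 i
    · rw [val X (p := p) (s := -1) (Or.inr rfl) (by omega) i]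
      exact sgn X i

theorem not3_of_cop {p : ℤ} {i : ℕ} (h : IsCoprime p ((3 : ℤ) ^ i)) : i = 0 ∨ ¬ (3 : ℤ) ∣ p := by
  rcases Nat.eq_zero_or_pos i with h0 | h0
  · exact Or.inl h0
  · right
    intro h1
    have h2 := h.isUnit_of_dvd' h1 (dvd_pow_self 3 (by omega))
    rw [Int.isUnit_iff] at h2
    omega

/-- **Step (ii).** -/
theorem step2 (X : Inv M ψ h) {i n : ℕ} (hn : 1 ≤ n) (hm : (M : ℤ) ∣ 3 ^ (n + 1) - 1) :
    h (1 / 3 ^ i) - h (1 / 3 ^ (i + n)) = ψ (3 : ZMod M) ^ n * (h (1 / 3 ^ (i + 1)) - h (1 / 3 ^ i)) := by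
  obtain ⟨e, he⟩ := hm
  have h3M : ¬ (3 : ℤ) ∣ M := by
    intro h
    have h1 : (3 : ℕ) ∣ M := by exact_mod_cast h
    exact (Nat.Prime.coprime_iff_not_dvd Nat.prime_three).1 X.cop h1
  obtain ⟨d, hd⟩ : ∃ d : ℤ, d = 3 ^ n - M := ⟨_, rfl⟩
  obtain ⟨k, hk⟩ : ∃ k : ℤ, (3 : ℤ) ^ n = 3 * k := by
    refine ⟨3 ^ (n - 1), ?_⟩
    rw [← pow_succ']
    congr 1
    omega
  have hd3 : ¬ (3 : ℤ) ∣ d := by
    rw [hd, hk]
    omega
  have hcop : IsCoprime d (3 ^ i * M) := by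
    refine IsCoprime.mul_right ?_ ?_
    · refine IsCoprime.pow_right ?_
      rw [isCoprime_comm]
      exact (Int.prime_three.coprime_iff_not_dvd).2 hd3
    · have h1 := (pow_cop X.cop n).add_mul_left_left (-1)
      rw [hd]
      have e1 : (3 : ℤ) ^ n + (M : ℤ) * -1 = 3 ^ n - M := by ring
      rwa [e1] at h1
  obtain ⟨a, b, hab⟩ := hcop
  have hp3 : ¬ (3 : ℤ) ∣ 3 - e := by
    intro h
    have h1 : (3 : ℤ) ∣ e := by omega
    have h2 : (3 : ℤ) ∣ 3 ^ (n + 1) - 1 := by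
      rw [he]
      exact h1.mul_left _
    have h3 : (3 : ℤ) ∣ 3 ^ (n + 1) := dvd_pow_self 3 (by omega)
    omega
  have cp : ∀ (x : ℤ) (j : ℕ), ¬ (3 : ℤ) ∣ x → IsCoprime x ((3 : ℤ) ^ j) := by
    intro x j hx
    refine IsCoprime.pow_right ?_
    rw [isCoprime_comm]
    exact (Int.prime_three.coprime_iff_not_dvd).2 hx
  have hdet : a * d - -b * (3 ^ i * M) = 1 := by linear_combination hab
  have c1 : IsCoprime (3 - e) ((3 : ℤ) ^ (i + 1)) := cp _ _ hp3
  have c2 : IsCoprime (1 : ℤ) ((3 : ℤ) ^ i) := isCoprime_one_left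
  have q1 : 3 ^ i * M * (3 - e) + d * 3 ^ (i + 1) = (3 : ℤ) ^ i := by
    rw [hd, pow_succ]
    linear_combination (3 : ℤ) ^ i * he
  have q2 : 3 ^ i * M * 1 + d * 3 ^ i = (3 : ℤ) ^ (i + n) := by
    rw [hd, pow_add]
    ring
  have key := act2 X (a := a) (b := -b) (c := 3 ^ i * M) (d := d) (p := 3 - e) (q := 3 ^ (i + 1))
    (p' := 1) (q' := 3 ^ i) hdet (dvd_mul_left _ _) c1 (pow_cop X.cop _) c2 (pow_cop X.cop _) rfl q1 rfl q2
  have k1 : IsCoprime (a * (3 - e) + -b * 3 ^ (i + 1)) ((3 : ℤ) ^ i) := by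
    have := cop_frac hdet c1
    rwa [q1] at this
  have k2 : IsCoprime (a * 1 + -b * 3 ^ i) ((3 : ℤ) ^ (i + n)) := by
    have := cop_frac hdet c2
    rwa [q2] at this
  have v1 := xval X (not3_of_cop k1)
  have v2 := xval X (not3_of_cop k2)
  have v3 := xval X (not3_of_cop c1)
  have v4 := xval X (not3_of_cop c2)
  have hψ : ψ (d : ZMod M) = ψ (3 : ZMod M) ^ n := by
    rw [← map_pow]
    congr 1
    rw [hd]
    push_cast
    rw [ZMod.natCast_self, sub_zero]
  rw [hψ] at key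
  push_cast at key v1 v2 v3 v4
  rw [v1, v2, v3, v4] at key
  exact key

/-- **Periodicity.** -/
theorem per (X : Inv M ψ h) {i k : ℕ} {ε : ℤ} (hε : ε = 1 ∨ ε = -1) (hk : 1 ≤ k)
    (hm : (M : ℤ) ∣ 3 ^ k - ε) : h (1 / 3 ^ (i + k)) = h (1 / 3 ^ i) := by
  obtain ⟨e, he⟩ := hm
  have h3M : ¬ (3 : ℤ) ∣ M := by
    intro h
    have h1 : (3 : ℕ) ∣ M := by exact_mod_cast h
    exact (Nat.Prime.coprime_iff_not_dvd Nat.prime_three).1 X.cop h1
  have hεε : ε * ε = 1 := by rcases hε with rfl | rfl <;> norm_num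
  obtain ⟨p2, hp2, hp2'⟩ : ∃ p2 : ℤ, (p2 = 1 ∨ p2 = -1) ∧ (3 : ℤ) ∣ M * p2 + ε := by
    by_cases h1 : (3 : ℤ) ∣ M + ε
    · exact ⟨1, Or.inl rfl, by rwa [mul_one]⟩
    · refine ⟨-1, Or.inr rfl, ?_⟩
      rcases hε with rfl | rfl <;> omega
  obtain ⟨d, hd⟩ : ∃ d : ℤ, d = ε - M * p2 := ⟨_, rfl⟩
  have hd3 : ¬ (3 : ℤ) ∣ d := by
    rw [hd]
    rcases hε with rfl | rfl <;> omega
  have cp : ∀ (x : ℤ) (j : ℕ), ¬ (3 : ℤ) ∣ x → IsCoprime x ((3 : ℤ) ^ j) := by
    intro x j hx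
    refine IsCoprime.pow_right ?_
    rw [isCoprime_comm]
    exact (Int.prime_three.coprime_iff_not_dvd).2 hx
  have hcop : IsCoprime d (3 ^ i * M) := by
    refine IsCoprime.mul_right (cp _ _ hd3) ⟨ε, ε * p2, ?_⟩
    rw [hd]
    linear_combination hεε
  obtain ⟨a, b, hab⟩ := hcop
  have hdet : a * d - -b * (3 ^ i * M) = 1 := by linear_combination hab
  have hp1 : M * (p2 + e) + d = (3 : ℤ) ^ k := by
    rw [hd]
    linear_combination -he
  have h3k : (3 : ℤ) ∣ 3 ^ k := dvd_pow_self 3 (by omega)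
  have hp13 : ¬ (3 : ℤ) ∣ p2 + e := by
    intro h
    have h1 : (3 : ℤ) ∣ M * (p2 + e) := h.mul_left _
    have h2 : d = 3 ^ k - M * (p2 + e) := by linear_combination hp1
    exact hd3 (h2 ▸ dvd_sub h3k h1)
  have hp23 : ¬ (3 : ℤ) ∣ p2 := by rcases hp2 with rfl | rfl <;> omega
  have c1 : IsCoprime (p2 + e) ((3 : ℤ) ^ i) := cp _ _ hp13
  have c2 : IsCoprime p2 ((3 : ℤ) ^ i) := cp _ _ hp23
  have q1 : 3 ^ i * M * (p2 + e) + d * 3 ^ i = (3 : ℤ) ^ (i + k) := by
    rw [pow_add]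
    linear_combination (3 : ℤ) ^ i * hp1
  have q2 : 3 ^ i * M * p2 + d * 3 ^ i = ε * (3 : ℤ) ^ i := by
    rw [hd]
    ring
  have key := act2 X (a := a) (b := -b) (c := 3 ^ i * M) (d := d) (p := p2 + e) (q := 3 ^ i)
    (p' := p2) (q' := 3 ^ i) hdet (dvd_mul_left _ _) c1 (pow_cop X.cop _) c2 (pow_cop X.cop _) rfl q1 rfl q2
  have k1 : IsCoprime (a * (p2 + e) + -b * 3 ^ i) ((3 : ℤ) ^ (i + k)) := by
    have := cop_frac hdet c1
    rwa [q1] at this
  have k2 : IsCoprime (ε * (a * p2 + -b * 3 ^ i)) ((3 : ℤ) ^ i) := by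
    have h1 := cop_frac hdet c2
    rw [q2] at h1
    have h2 := h1.of_mul_right_right
    exact (IsCoprime.mul_left ⟨ε, 0, by rw [hεε]; ring⟩ h2)
  have v1 := xval X (not3_of_cop k1)
  have v2 := xval X (not3_of_cop k2)
  have v3 := xval X (not3_of_cop c1)
  have v4 := xval X (not3_of_cop c2)
  have e1 : (((a * p2 + -b * 3 ^ i : ℤ) : ℚ) / ((ε * (3 : ℤ) ^ i : ℤ) : ℚ)) =
      ((ε * (a * p2 + -b * 3 ^ i) : ℤ) : ℚ) / 3 ^ i := by
    push_cast
    rcases hε with rfl | rfl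
    · push_cast
      rw [one_mul, one_mul]
    · push_cast
      rw [neg_one_mul, neg_one_mul, div_neg, neg_div]
  rw [e1] at key
  push_cast at key v1 v2 v3 v4
  rw [v1, v2, v3, v4, sub_self, mul_zero] at key
  exact sub_eq_zero.1 key

/-- The differences. -/
theorem dif (X : Inv M ψ h) (i : ℕ) :
    h (1 / 3 ^ (i + 2)) - h (1 / 3 ^ (i + 1)) = ψ (3 : ZMod M) * (h (1 / 3 ^ (i + 1)) - h (1 / 3 ^ i)) := by
  obtain ⟨m, hm2, hm⟩ := exM X.cop
  obtain ⟨n, rfl⟩ : ∃ n, m = n + 1 := ⟨m - 1, by omega⟩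
  have h1 := step2 X (i := i + 1) (n := n) (by omega) hm
  have h2 := per X (i := i) (k := n + 1) (Or.inl rfl) (by omega) hm
  have e : i + 1 + n = i + (n + 1) := by ring
  rw [e, h2] at h1
  have hψ : ψ (3 : ZMod M) ^ (n + 1) = 1 := by
    rw [← map_pow]
    have e1 : (3 : ZMod M) ^ (n + 1) = 1 := by
      have h3 := (ZMod.intCast_zmod_eq_zero_iff_dvd (3 ^ (n + 1) - 1) M).2 hm
      push_cast at h3
      exact sub_eq_zero.1 h3
    rw [e1, map_one]
  have e2 : i + 1 + 1 = i + 2 := by ring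
  rw [e2] at h1
  have h4 : ψ (3 : ZMod M) * (h (1 / 3 ^ (i + 1)) - h (1 / 3 ^ i)) =
      ψ (3 : ZMod M) ^ (n + 1) * (h (1 / 3 ^ (i + 2)) - h (1 / 3 ^ (i + 1))) := by
    rw [pow_succ (ψ (3 : ZMod M)) n]
    linear_combination ψ (3 : ZMod M) * h1
  rw [h4, hψ, one_mul]

/-- `u`. -/
def u (h : ℚ → F) (i : ℕ) : F := h (1 / 3 ^ i) - h 0

theorem u_zero (X : Inv M ψ h) : u h 0 = 0 := by
  unfold u
  rw [pow_zero, div_one, h_one X, sub_self]

theorem u_dif (X : Inv M ψ h) (i : ℕ) : u h (i + 1) - u h i = ψ (3 : ZMod M) ^ i * u h 1 := by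
  induction i with
  | zero => rw [u_zero X, sub_zero, pow_zero, one_mul]
  | succ i ih =>
    have h1 := dif X i
    unfold u at ih ⊢
    rw [pow_succ' (ψ (3 : ZMod M)) i]
    linear_combination h1 + ψ (3 : ZMod M) * ih

theorem u_add (X : Inv M ψ h) (i j : ℕ) : u h (i + j) = u h i + ψ (3 : ZMod M) ^ i * u h j := by
  induction j with
  | zero => rw [u_zero X, add_zero, mul_zero, add_zero]
  | succ j ih =>
    have h1 := u_dif X (i + j)
    have h2 := u_dif X j
    rw [← add_assoc]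
    rw [pow_add] at h1
    linear_combination h1 + ih - ψ (3 : ZMod M) ^ i * h2

theorem u_per (X : Inv M ψ h) {i j : ℕ} (hij : ((3 : ZMod M) ^ i = 3 ^ j) ∨ (3 : ZMod M) ^ i = -3 ^ j) :
    u h i = u h j := by
  have key : ∀ i j : ℕ, i ≤ j → (((3 : ZMod M) ^ i = 3 ^ j) ∨ (3 : ZMod M) ^ i = -3 ^ j) →
      u h i = u h j := by
    intro i j hle hij
    obtain ⟨k, rfl⟩ := Nat.exists_eq_add_of_le hle
    rcases Nat.eq_zero_or_pos k with rfl | hk
    · rfl
    have hu : IsUnit ((3 : ZMod M) ^ i) := by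
      refine IsUnit.pow i ?_
      have := (ZMod.unitOfCoprime 3 X.cop).isUnit
      rw [ZMod.coe_unitOfCoprime] at this
      exact_mod_cast this
    have h1 : ∃ ε : ℤ, (ε = 1 ∨ ε = -1) ∧ (M : ℤ) ∣ 3 ^ k - ε := by
      rcases hij with h1 | h1
      · refine ⟨1, Or.inl rfl, ?_⟩
        rw [← ZMod.intCast_zmod_eq_zero_iff_dvd]
        push_cast
        rw [pow_add] at h1
        have h2 : (3 : ZMod M) ^ i * (3 ^ k - 1) = 0 := by linear_combination -h1
        exact (hu.mul_right_eq_zero).1 h2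
      · refine ⟨-1, Or.inr rfl, ?_⟩
        rw [← ZMod.intCast_zmod_eq_zero_iff_dvd]
        push_cast
        rw [pow_add] at h1
        have h2 : (3 : ZMod M) ^ i * (3 ^ k - -1) = 0 := by linear_combination h1
        exact (hu.mul_right_eq_zero).1 h2
    obtain ⟨ε, hε, hM⟩ := h1
    unfold u
    rw [per X hε hk hM]
  rcases le_total i j with hle | hle
  · exact key i j hle hij
  · refine (key j i hle ?_).symm
    rcases hij with h1 | h1
    · exact Or.inl h1.symm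
    · exact Or.inr (by rw [h1, neg_neg])

/-- The relation. -/
def Rel (ψ : MulChar (ZMod M) F) (h : ℚ → F) (r s : ℚ) : Prop :=
  ∃ i j : ℕ, ((r.den : ZMod M) * 3 ^ i = s.den * 3 ^ j ∨ (r.den : ZMod M) * 3 ^ i = -(s.den * 3 ^ j)) ∧
    h r + ψ (r.den : ZMod M) * u h i = h s + ψ (s.den : ZMod M) * u h j

theorem rel_equiv (X : Inv M ψ h) (hneg : ψ (-1) = 1) : Equivalence (Rel ψ h) where
  refl r := ⟨0, 0, Or.inl rfl, rfl⟩
  symm := by
    rintro r s ⟨i, j, h1, h2⟩
    refine ⟨j, i, ?_, h2.symm⟩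
    rcases h1 with h1 | h1
    · exact Or.inl h1.symm
    · exact Or.inr (by rw [h1, neg_neg])
  trans := by
    rintro r s t ⟨i, j, h1, h2⟩ ⟨i', j', h3, h4⟩
    have hψ : ∀ x y : ZMod M, (x = y ∨ x = -y) → ψ x = ψ y := by
      rintro x y (rfl | rfl)
      · rfl
      · have : -y = -1 * y := by ring
        rw [this, map_mul, hneg, one_mul]
    have k1 : ψ (r.den : ZMod M) * ψ 3 ^ i = ψ (s.den : ZMod M) * ψ 3 ^ j := by
      have := hψ _ _ h1
      rwa [map_mul, map_mul, map_pow, map_pow] at this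
    have k2 : ψ (s.den : ZMod M) * ψ 3 ^ i' = ψ (t.den : ZMod M) * ψ 3 ^ j' := by
      have := hψ _ _ h3
      rwa [map_mul, map_mul, map_pow, map_pow] at this
    refine ⟨i + i', j' + j, ?_, ?_⟩
    · rw [pow_add, pow_add]
      rcases h1 with h1 | h1 <;> rcases h3 with h3 | h3
      · left; linear_combination (3 : ZMod M) ^ i' * h1 + (3 : ZMod M) ^ j * h3
      · right; linear_combination (3 : ZMod M) ^ i' * h1 + (3 : ZMod M) ^ j * h3
      · right; linear_combination (3 : ZMod M) ^ i' * h1 - (3 : ZMod M) ^ j * h3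
      · left; linear_combination (3 : ZMod M) ^ i' * h1 - (3 : ZMod M) ^ j * h3
    · have a1 := u_add X i i'
      have a2 := u_add X j' j
      have a3 := u_add X j i'
      have a4 := u_add X i' j
      rw [add_comm i' j] at a4
      have a5 : u h j + ψ (3 : ZMod M) ^ j * u h i' = u h i' + ψ (3 : ZMod M) ^ i' * u h j := by
        rw [← a3, ← a4]
      rw [a1, a2]
      linear_combination h2 + h4 + u h i' * k1 + ψ (s.den : ZMod M) * a5 + u h j * k2

theorem abs_cast (x : ℤ) : ((x.natAbs : ℕ) : ZMod M) = x ∨ ((x.natAbs : ℕ) : ZMod M) = -(x : ZMod M) := by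
  obtain ⟨n, hn⟩ : ∃ n : ℕ, n = x.natAbs := ⟨_, rfl⟩
  have h1 := Int.natAbs_eq x
  rw [← hn] at h1 ⊢
  rcases h1 with h1 | h1 <;> rw [h1]
  · left
    rw [Int.cast_natCast]
  · right
    rw [Int.cast_neg, Int.cast_natCast, neg_neg]

/-- **Theorem V for `k = 1`.** -/
theorem thmV_inv (X : Inv M ψ h) {b d : ℤ} (hbd : IsCoprime b d) (hd : (M : ℤ) ∣ d - 1) :
    h (b / d) = h 0 := by
  have hdM : IsCoprime d (M : ℤ) := by
    obtain ⟨e, he⟩ := hd
    exact ⟨1, -e, by linear_combination he⟩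
  have hd0 : d ≠ 0 := ne_of_cop X.two hdM
  by_cases hneg : ψ (-1) = 1
  · have hψ : ∀ x y : ZMod M, (x = y ∨ x = -y) → ψ x = ψ y := by
      rintro x y (rfl | rfl)
      · rfl
      · have : -y = -1 * y := by ring
        rw [this, map_mul, hneg, one_mul]
    have hE := thmV (E := Rel ψ h) Nat.prime_three (by norm_num) X.cop X.two (rel_equiv X hneg) (by
      intro a b c d h1 h2 y hy
      obtain ⟨n, hn⟩ := AL_den hy
      have hyc : IsCoprime y.num ((3 : ℤ) ^ n) := by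
        have := num_den_cop y
        rw [hn] at this
        push_cast at this
        exact this
      have ey : y = (y.num : ℚ) / (((3 : ℤ) ^ n : ℤ) : ℚ) := by
        have := AL_of_den hn
        push_cast at this ⊢
        exact this
      have hdc := d_cop h1 h2
      have hbc : IsCoprime b d := ⟨-c, a, by linear_combination h1⟩
      have hQ : IsCoprime (c * y.num + d * 3 ^ n) (M : ℤ) := by
        have := (den_ne X.two h1 h2 (thmV_den X.cop hy)).2
        rw [hn] at this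
        push_cast at this
        exact this
      have e1 : (a * y + b) / (c * y + d) =
          (((a * y.num + b * 3 ^ n : ℤ)) : ℚ) / ((c * y.num + d * 3 ^ n : ℤ) : ℚ) := by
        have h30 : ((3 : ℚ)) ^ n ≠ 0 := pow_ne_zero _ (by norm_num)
        have e2 : a * y + b = ((a * y.num + b * 3 ^ n : ℤ) : ℚ) / 3 ^ n := by
          push_cast
          rw [eq_div_iff h30]
          nth_rewrite 1 [ey]
          push_cast
          field_simp
        have e3 : c * y + d = ((c * y.num + d * 3 ^ n : ℤ) : ℚ) / 3 ^ n := by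
          push_cast
          rw [eq_div_iff h30]
          nth_rewrite 1 [ey]
          push_cast
          field_simp
        rw [e2, e3, div_div_div_cancel_right₀ h30]
      have d1 := frac_den (cop_frac h1 hyc) (ne_of_cop X.two hQ)
      rw [← e1] at d1
      have d2 := frac_den hbc (ne_of_cop X.two hdc)
      have cQ : ((c * y.num + d * 3 ^ n : ℤ) : ZMod M) = d * 3 ^ n := by
        push_cast
        rw [(ZMod.intCast_zmod_eq_zero_iff_dvd c M).2 h2]
        ring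
      refine ⟨0, n, ?_, ?_⟩
      · rw [d1, d2, pow_zero, mul_one]
        rcases abs_cast (M := M) (c * y.num + d * 3 ^ n) with g1 | g1 <;>
        rcases abs_cast (M := M) d with g2 | g2 <;> rw [g1, g2, cQ]
        · left; ring
        · right; ring
        · right; ring
        · left; ring
      · have g1 := X.hG a b c d h1 h2 y (thmV_den X.cop hy)
        have g2 : ψ (((b : ℚ) / d).den : ZMod M) = ψ (d : ZMod M) := by
          rw [d2]
          exact hψ _ _ (abs_cast d)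
        rw [u_zero X, mul_zero, add_zero, g2]
        have g3 : h y = h (1 / 3 ^ n) := by
          have := xval X (not3_of_cop hyc)
          push_cast at ey
          rw [← ey] at this
          exact this
        unfold u
        rw [← g3]
        linear_combination g1) hbd hd
    obtain ⟨i, j, h1, h2⟩ := hE
    have e0 : (0 : ℚ).den = 1 := rfl
    have hd1 : (d : ZMod M) = 1 := by
      have := (ZMod.intCast_zmod_eq_zero_iff_dvd (d - 1) M).2 hd
      push_cast at this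
      exact sub_eq_zero.1 this
    have d2 := frac_den hbd hd0
    rw [e0, Nat.cast_one, one_mul, d2] at h1
    rw [e0, Nat.cast_one, map_one, one_mul, d2, hψ _ _ (abs_cast d), hd1, map_one, one_mul] at h2
    have hu : u h i = u h j := by
      refine u_per X ?_
      rcases abs_cast (M := M) d with g | g <;> rw [g, hd1] at h1
      · rw [one_mul] at h1
        exact h1
      · rcases h1 with h1 | h1
        · right; linear_combination -h1
        · left; linear_combination -h1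
    rw [hu] at h2
    exact add_right_cancel h2
  · have h1 := X.hG (-1) 0 0 (-1) (by norm_num) (dvd_zero _) ((b : ℚ) / d) (frac_cop hbd hd0 hdM)
    push_cast at h1
    rw [zero_mul, zero_add, add_zero, neg_one_mul, neg_div_neg_eq, div_one, zero_div] at h1
    have h2 : (1 - ψ (-1)) * (h (b / d) - h 0) = 0 := by linear_combination h1
    rcases mul_eq_zero.1 h2 with h3 | h3
    · exact absurd (sub_eq_zero.1 h3).symm hneg
    · exact sub_eq_zero.1 h3

end Pool.Agent.DM.DU.V1
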